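import Mathlib
import Pool.Graph.R_pool_sql_team_seeded_3997aac3.Q67.MSys.Space

/-!
# A non-minimal M-system, given by a homeomorphism, with a dense set of points without proximal
points nearby

The space and the map are those of the library (`Q67.MSys`): the orbit closure of a point of
`ℤ₂ × {0,1}^ℤ` under the translation by `1` times the shift.
-/

open Set Filter Topology

namespace Pool.Agent.Results.MP_6bd6f6_an.DenseDistalPoints

variable {X : Type} [MetricSpace X]

/-- A dynamical system on a compact metric space `X`: more than one point, no isolated point,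
`T` continuous and onto. -/
structure IsSystem (T : X → X) : Prop where
  compact : CompactSpace X
  nontrivial : Nontrivial X
  no_isolated : ∀ x : X, ¬ IsOpen ({x} : Set X)
  continuous : Continuous T
  surjective : Function.Surjective T

/-- Topological transitivity. -/
def IsTransitive (T : X → X) : Prop :=
  ∀ U V : Set X, IsOpen U → IsOpen V → U.Nonempty → V.Nonempty → ∃ n : ℕ, (U ∩ T^[n] ⁻¹' V).Nonempty

/-- Nonempty closed `M` with `T M ⊆ M`, without proper nonempty closed subsets with the same property. -/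
def IsMinimalSet (T : X → X) (M : Set X) : Prop :=
  (M.Nonempty ∧ IsClosed M ∧ MapsTo T M M) ∧
    ∀ N : Set X, N ⊆ M → N.Nonempty → IsClosed N → MapsTo T N N → N = M

/-- A point that lies in some minimal set. -/
def IsMinimalPoint (T : X → X) (x : X) : Prop := ∃ M : Set X, IsMinimalSet T M ∧ x ∈ M

/-- A transitive system with a dense set of minimal points. -/
def IsMSystem (T : X → X) : Prop :=
  IsSystem T ∧ IsTransitive T ∧ Dense {x : X | IsMinimalPoint T x}

/-- Li-Yorke sensitivity. -/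
def LiYorkeSensitive (T : X → X) : Prop :=
  ∃ δ > (0 : ℝ), ∀ x : X, ∀ U ∈ 𝓝 x, ∃ y ∈ U,
    liminf (fun n : ℕ => dist (T^[n] x) (T^[n] y)) atTop = 0 ∧
    δ < limsup (fun n : ℕ => dist (T^[n] x) (T^[n] y)) atTop

/-- Li-Yorke sensitivity at the points of the set `V` only, with the constant `δ`. -/
def LiYorkeSensitiveOn (T : X → X) (V : Set X) (δ : ℝ) : Prop :=
  ∀ x ∈ V, ∀ U ∈ 𝓝 x, ∃ y ∈ U,
    liminf (fun n : ℕ => dist (T^[n] x) (T^[n] y)) atTop = 0 ∧
    δ < limsup (fun n : ℕ => dist (T^[n] x) (T^[n] y)) atTop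

lemma exists_eta [CompactSpace X] {f : X → ℤ_[2]} (hf : Continuous f) {ε : ℝ} (hε : 0 < ε) :
    ∃ η > 0, ∀ a b : X, dist a b < η → dist (f a) (f b) < ε := by
  obtain ⟨η, hη, hd⟩ := Metric.uniformContinuous_iff.1
    (CompactSpace.uniformContinuous_of_continuous hf) ε hε
  exact ⟨η, hη, fun a b h => hd h⟩

lemma S_mem {a : Q67.MSys.A} (ha : a ∈ Q67.MSys.X0) : Q67.MSys.Th.symm a ∈ Q67.MSys.X0 := by
  rw [← Q67.MSys.Th_image] at ha
  obtain ⟨b, hb, rfl⟩ := ha
  rw [Homeomorph.symm_apply_apply]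
  exact hb

/-- the inverse map -/
noncomputable def S (x : Q67.MSys.X) : Q67.MSys.X := ⟨Q67.MSys.Th.symm x.1, S_mem x.2⟩

/-- the homeomorphism -/
noncomputable def TT : Q67.MSys.X ≃ₜ Q67.MSys.X where
  toFun := Q67.MSys.T
  invFun := S
  left_inv x := Subtype.ext (Q67.MSys.Th.symm_apply_apply x.1)
  right_inv x := Subtype.ext (Q67.MSys.Th.apply_symm_apply x.1)
  continuous_toFun := Q67.MSys.T_continuous
  continuous_invFun := (Q67.MSys.Th.symm.continuous.comp continuous_subtype_val).subtype_mk _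

lemma TT_coe : (TT : Q67.MSys.X → Q67.MSys.X) = Q67.MSys.T := rfl

lemma TT_symm_coe : (TT.symm : Q67.MSys.X → Q67.MSys.X) = S := rfl

lemma S_fst (x : Q67.MSys.X) : (S x).1.1 = x.1.1 - 1 := rfl

lemma S_iter_fst (n : ℕ) (x : Q67.MSys.X) : (S^[n] x).1.1 = x.1.1 - n := by
  induction n generalizing x with
  | zero => simp
  | succ n ih =>
    rw [Function.iterate_succ_apply, ih, S_fst]
    push_cast
    ring

lemma T_iter_snd (n : ℕ) (x : Q67.MSys.X) (s : ℤ) : (Q67.MSys.T^[n] x).1.2 s = x.1.2 (s + n) := by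
  induction n generalizing x s with
  | zero => simp
  | succ n ih =>
    rw [Function.iterate_succ_apply, ih]
    exact congrArg x.1.2 (show s + (n : ℤ) + 1 = s + ((n + 1 : ℕ) : ℤ) by push_cast; ring)

lemma S_iter_snd (n : ℕ) (x : Q67.MSys.X) (s : ℤ) : (S^[n] x).1.2 s = x.1.2 (s - n) := by
  induction n generalizing x s with
  | zero => simp
  | succ n ih =>
    rw [Function.iterate_succ_apply, ih]
    exact congrArg x.1.2 (show s - (n : ℤ) - 1 = s - ((n + 1 : ℕ) : ℤ) by push_cast; ring)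

lemma T_iter_op (n : ℕ) (m : ℤ) : Q67.MSys.T^[n] (Q67.MSys.op m) = Q67.MSys.op (m + n) :=
  Q67.MSys.iter_op n m

lemma S_op (m : ℤ) : S (Q67.MSys.op m) = Q67.MSys.op (m - 1) := by
  have h := Q67.MSys.T_op (m - 1)
  rw [sub_add_cancel] at h
  rw [← h]
  exact TT.symm_apply_apply _

lemma S_iter_op (n : ℕ) (m : ℤ) : S^[n] (Q67.MSys.op m) = Q67.MSys.op (m - n) := by
  induction n generalizing m with
  | zero => simp
  | succ n ih =>
    rw [Function.iterate_succ_apply, S_op, ih]
    congr 1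
    push_cast
    ring

/-- the points of the two-sided orbit are isolated in their fibres over the odometer -/
lemma fibre_m {m : ℤ} {y : Q67.MSys.X} (h1 : y.1.1 = m) (h2 : y.1.2 (-m) = true) :
    y = Q67.MSys.op m := by
  rcases le_total 0 m with hm | hm
  · obtain ⟨n, rfl⟩ := Int.eq_ofNat_of_zero_le hm
    have h3 : S^[n] y = Q67.MSys.op 0 := by
      apply Q67.MSys.fibre
      · rw [S_iter_fst, h1]; simp
      · rw [S_iter_snd, zero_sub]; exact h2
    have h4 : S^[n] y = S^[n] (Q67.MSys.op (n : ℤ)) := by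
      rw [h3, S_iter_op, sub_self]
    exact (TT.symm.injective.iterate n) h4
  · obtain ⟨n, hn⟩ := Int.eq_ofNat_of_zero_le (neg_nonneg.2 hm)
    have hm' : m = -(n : ℤ) := by omega
    subst hm'
    have h3 : Q67.MSys.T^[n] y = Q67.MSys.op 0 := by
      apply Q67.MSys.fibre
      · rw [Q67.MSys.iter_fst, h1]; simp
      · rw [T_iter_snd, zero_add]
        rw [neg_neg] at h2
        exact h2
    have h4 : Q67.MSys.T^[n] y = Q67.MSys.T^[n] (Q67.MSys.op (-(n : ℤ))) := by
      rw [h3, T_iter_op, neg_add_cancel]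
    exact (TT.injective.iterate n) h4

lemma dense_fwd (m : ℤ) : Dense (range fun n : ℕ => Q67.MSys.T^[n] (Q67.MSys.op m)) := by
  rw [dense_iff_inter_open]
  intro U hU hUn
  obtain ⟨a, ha⟩ := Q67.MSys.exists_op hU hUn
  obtain ⟨c, hc1, _, hc2⟩ := Q67.MSys.recur_open hU ha m.natAbs
  refine ⟨Q67.MSys.op c, hc2, (c - m).toNat, ?_⟩
  simp only [T_iter_op]
  congr 1
  omega

/-- **Main theorem.** There is a non-minimal M-system given by a homeomorphism `T` of a compact
metric space `X` and a dense `T`-invariant and `T⁻¹`-invariant set `D` of points with dense forward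
orbit such that every `x ∈ D` has a neighbourhood `U` for which every `y ∈ U`, `y ≠ x`, forms with `x`
a distal pair, forward and backward in time: `inf_{n ∈ ℤ} d(Tⁿ x, Tⁿ y) > 0`.  So the system is not
Li-Yorke sensitive on any nonempty open set. -/
theorem result : ∃ (X : Type) (_ : MetricSpace X) (T : X ≃ₜ X),
    IsMSystem (T : X → X) ∧ ¬ IsMinimalSet (T : X → X) Set.univ ∧ ¬ LiYorkeSensitive (T : X → X) ∧
    (∀ V : Set X, IsOpen V → V.Nonempty → ∀ δ > (0 : ℝ), ¬ LiYorkeSensitiveOn (T : X → X) V δ) ∧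
    ∃ D : Set X, Dense D ∧ (∀ x ∈ D, T x ∈ D ∧ T.symm x ∈ D) ∧
      (∀ x ∈ D, Dense (range fun n : ℕ => T^[n] x)) ∧
      ∀ x ∈ D, ∃ U ∈ 𝓝 x, ∀ y ∈ U, y ≠ x → ∃ η > (0 : ℝ), ∀ n : ℕ,
        η ≤ dist (T^[n] x) (T^[n] y) ∧ η ≤ dist (T.symm^[n] x) (T.symm^[n] y) := by
  classical
  let _ : MetricSpace Q67.MSys.X := TopologicalSpace.metrizableSpaceMetric Q67.MSys.X
  have hdist : ∀ m : ℤ, ∃ U ∈ 𝓝 (Q67.MSys.op m), ∀ y ∈ U, y ≠ Q67.MSys.op m →
      ∃ η > (0 : ℝ), ∀ n : ℕ,
        η ≤ dist (Q67.MSys.T^[n] (Q67.MSys.op m)) (Q67.MSys.T^[n] y) ∧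
        η ≤ dist (S^[n] (Q67.MSys.op m)) (S^[n] y) := by
    intro m
    refine ⟨{y : Q67.MSys.X | y.1.2 (-m) = true}, ?_, ?_⟩
    · have ho : IsOpen {y : Q67.MSys.X | y.1.2 (-m) = true} := by
        have : {y : Q67.MSys.X | y.1.2 (-m) = true} =
            (fun y : Q67.MSys.X => y.1.2 (-m)) ⁻¹' {true} := by ext; simp
        rw [this]
        exact (isOpen_discrete _).preimage
          ((continuous_apply (-m : ℤ)).comp (continuous_snd.comp continuous_subtype_val))
      refine ho.mem_nhds ?_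
      show decide (Q67.MSys.E (m + -m)) = true
      rw [add_neg_cancel]
      simpa using Q67.MSys.E.zero
    · intro y hy hne
      have hz : y.1.1 - (m : ℤ_[2]) ≠ 0 := fun h => hne (fibre_m (sub_eq_zero.1 h) hy)
      have hcont : Continuous (fun y : Q67.MSys.X => y.1.1) :=
        continuous_fst.comp continuous_subtype_val
      obtain ⟨η, hη, hd⟩ := exists_eta (X := Q67.MSys.X) hcont (norm_pos_iff.2 hz)
      have h0 : (Q67.MSys.op m).1.1 = m := rfl
      refine ⟨η, hη, fun n => ⟨?_, ?_⟩⟩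
      · by_contra hcon
        push Not at hcon
        have := hd _ _ hcon
        simp only [Q67.MSys.iter_fst] at this
        rw [dist_eq_norm, h0] at this
        have e : (m : ℤ_[2]) + n - (y.1.1 + n) = - (y.1.1 - m) := by ring
        rw [e, norm_neg] at this
        exact lt_irrefl _ this
      · by_contra hcon
        push Not at hcon
        have := hd _ _ hcon
        simp only [S_iter_fst] at this
        rw [dist_eq_norm, h0] at this
        have e : (m : ℤ_[2]) - n - (y.1.1 - n) = - (y.1.1 - m) := by ring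
        rw [e, norm_neg] at this
        exact lt_irrefl _ this
  have hon : ∀ V : Set Q67.MSys.X, IsOpen V → V.Nonempty → ∀ δ > (0 : ℝ),
      ¬ LiYorkeSensitiveOn Q67.MSys.T V δ := by
    intro V hV hVn δ hδ h
    obtain ⟨m, hm⟩ := Q67.MSys.exists_op hV hVn
    obtain ⟨U, hU, hUy⟩ := hdist m
    obtain ⟨y, hy, h1, h2⟩ := h _ hm U hU
    by_cases hne : y = Q67.MSys.op m
    · subst hne
      simp only [dist_self] at h2
      rw [limsup_const] at h2
      linarith
    · obtain ⟨η, hη, hd⟩ := hUy y hy hne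
      have h3 : η ≤ liminf (fun n : ℕ =>
          dist (Q67.MSys.T^[n] (Q67.MSys.op m)) (Q67.MSys.T^[n] y)) atTop := by
        refine le_liminf_of_le ?_ (Eventually.of_forall fun n => (hd n).1)
        exact IsBoundedUnder.isCoboundedUnder_ge
          ⟨Metric.diam (univ : Set Q67.MSys.X), by
            rw [eventually_map]
            exact Eventually.of_forall fun n =>
              Metric.dist_le_diam_of_mem isCompact_univ.isBounded (mem_univ _) (mem_univ _)⟩
      rw [h1] at h3
      linarith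
  refine ⟨Q67.MSys.X, inferInstance, TT, ⟨⟨inferInstance, ?_, Q67.MSys.no_isolated,
    TT.continuous, TT.surjective⟩, fun U V hU hV hUn hVn =>
      Q67.MSys.transitive hU hV hUn hVn, ?_⟩, ?_, ?_, hon, range Q67.MSys.op, Q67.MSys.dense_op,
      ?_, ?_, ?_⟩
  · exact ⟨Q67.MSys.op 0, Q67.MSys.op 1, fun h => by
      have := Q67.MSys.op_injective h
      omega⟩
  · rw [dense_iff_inter_open]
    intro U hU hUn
    obtain ⟨i, z, hz⟩ := Q67.MSys.exists_pp hU hUn
    refine ⟨_, hz, range (Q67.MSys.pp i), ⟨⟨range_nonempty _,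
      (isCompact_range (Q67.MSys.pp_continuous i)).isClosed, ?_⟩, ?_⟩, mem_range_self z⟩
    · rintro _ ⟨v, rfl⟩
      exact ⟨v + 1, (Q67.MSys.T_pp i v).symm⟩
    · intro N h1 h2 h3 h4
      exact Q67.MSys.pp_minimal i h1 h2 h3 h4
  · intro h
    have hu := h.2 (range (Q67.MSys.pp 0)) (subset_univ _) (range_nonempty _)
      (isCompact_range (Q67.MSys.pp_continuous 0)).isClosed (by
        rintro _ ⟨v, rfl⟩
        exact ⟨v + 1, (Q67.MSys.T_pp 0 v).symm⟩)
    exact Q67.MSys.op_zero_not_mem 0 (hu ▸ mem_univ _)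
  · rintro ⟨δ, hδ, h⟩
    exact hon univ isOpen_univ ⟨Q67.MSys.op 0, mem_univ _⟩ δ hδ fun x _ => h x
  · rintro _ ⟨m, rfl⟩
    exact ⟨⟨m + 1, (Q67.MSys.T_op m).symm⟩, ⟨m - 1, (S_op m).symm⟩⟩
  · rintro _ ⟨m, rfl⟩
    exact dense_fwd m
  · rintro _ ⟨m, rfl⟩
    exact hdist m

end Pool.Agent.Results.MP_6bd6f6_an.DenseDistalPoints
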