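import Mathlib
import Pool.Agent.KS6_12.LY.Top

set_option autoImplicit false

/-!
# Dense periodic points do not imply Li-Yorke sensitivity

Q1 asks whether every non-minimal M-system is Li-Yorke sensitive. The answer is no, even if the periodic points are
dense and the system has a fixed point, so has no nontrivial equicontinuous factor: there are a system `(X, T)` of this
kind, a point `x` and a neighbourhood `U` of `x` such that no point `y ≠ x` of `U` is proximal to `x`.

Let `A_0 = 1`, `B_0 = 0`, `A_{k+1} = A_k A_k B_k`, `B_{k+1} = B_k B_k A_k`. The words of `W_0` are `0` and `1`, and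
those of `W_{k+1}` are `A_{k+1}` and all `u v w` with `u, v, w ∈ W_k`, `u ≠ A_k`. The space `X` consists of the
one-sided sequences that are, for every `k`, products of words of `W_k` after a first incomplete word, and `T` is the
shift. The point `x` has the prefix `A_k` for every `k`; it is a point of a minimal set (a Toeplitz-like substitution
`1 → 110`, `0 → 001`). If `y` in `X` starts with `1` and is not `x`, there is `k` with the prefix `A_k` and without the
prefix `A_{k+1}`, so `y` is not cut at `0` into words of `W_{k+1}`, and the words of `W_{k+1}` can not be recognized in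
`x` at the places where `y` has them, in any long window.
-/

namespace Pool.Agent.Results.MP_6bd6f6_an.DensePeriodicPoints

open Set Filter Topology

variable {X : Type} [MetricSpace X]

/-- A dynamical system on a compact metric space `X`: more than one point, no isolated point, `T` continuous and
onto. -/
structure IsSystem (T : X → X) : Prop where
  compact : CompactSpace X
  nontrivial : Nontrivial X
  no_isolated : ∀ x : X, ¬ IsOpen ({x} : Set X)
  continuous : Continuous T
  surjective : Function.Surjective T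

/-- Topological transitivity. -/
def IsTransitive (T : X → X) : Prop :=
  ∀ U V : Set X, IsOpen U → IsOpen V → U.Nonempty → V.Nonempty → ∃ n : ℕ, (U ∩ T^[n] ⁻¹' V).Nonempty

/-- Nonempty closed `M` with `T M ⊆ M`, without proper nonempty closed subsets with the same property. -/
def IsMinimalSet (T : X → X) (M : Set X) : Prop :=
  (M.Nonempty ∧ IsClosed M ∧ MapsTo T M M) ∧
    ∀ N : Set X, N ⊆ M → N.Nonempty → IsClosed N → MapsTo T N N → N = M

/-- A point that lies in some minimal set. -/
def IsMinimalPoint (T : X → X) (x : X) : Prop := ∃ M : Set X, IsMinimalSet T M ∧ x ∈ M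

/-- A transitive system with a dense set of minimal points. -/
def IsMSystem (T : X → X) : Prop :=
  IsSystem T ∧ IsTransitive T ∧ Dense {x : X | IsMinimalPoint T x}

/-- Li-Yorke sensitivity. -/
def LiYorkeSensitive (T : X → X) : Prop :=
  ∃ δ > (0 : ℝ), ∀ x : X, ∀ U ∈ 𝓝 x, ∃ y ∈ U,
    liminf (fun n : ℕ => dist (T^[n] x) (T^[n] y)) atTop = 0 ∧
    δ < limsup (fun n : ℕ => dist (T^[n] x) (T^[n] y)) atTop

/-- Every factor of `(X, T)` with equicontinuous iterates is a point. -/
def NoEquicontinuousFactor (T : X → X) : Prop :=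
  ∀ (Y : Type) [MetricSpace Y] (S : Y → Y) (π : X → Y), Continuous π → Function.Surjective π →
    (∀ x, π (T x) = S (π x)) →
    (∀ ε > 0, ∃ δ > 0, ∀ a b : Y, dist a b < δ → ∀ n : ℕ, dist (S^[n] a) (S^[n] b) < ε) → Subsingleton Y

theorem periodic_minimal {T : X → X} {x : X} {r : ℕ} (hr : 1 ≤ r) (h : T^[r] x = x) : IsMinimalPoint T x := by
  have hper : ∀ m, T^[m % r] x = T^[m] x := fun m => Function.IsPeriodicPt.iterate_mod_apply (n := r) h m
  refine ⟨range fun n : ℕ => T^[n] x, ⟨⟨⟨x, 0, rfl⟩, ?_, ?_⟩, ?_⟩, ⟨0, rfl⟩⟩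
  · refine Set.Finite.isClosed (Set.Finite.subset ((finite_Iio r).image fun n => T^[n] x) ?_)
    rintro _ ⟨n, rfl⟩
    exact ⟨n % r, Nat.mod_lt _ hr, hper n⟩
  · rintro _ ⟨n, rfl⟩
    exact ⟨n + 1, Function.iterate_succ_apply' T n x⟩
  · rintro N hN ⟨y, hy⟩ - hm
    refine Subset.antisymm hN ?_
    rintro _ ⟨m, rfl⟩
    obtain ⟨i, rfl⟩ := hN hy
    have h1 : ∀ j, T^[j] (T^[i] x) ∈ N := by
      intro j
      induction j with
      | zero => exact hy
      | succ j ih => rw [Function.iterate_succ_apply']; exact hm ih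
    have h2 := h1 (m + i * (r - 1))
    rw [← Function.iterate_add_apply] at h2
    have h3 : m + i * (r - 1) + i = m + i * r := by
      obtain ⟨s, rfl⟩ : ∃ s, r = s + 1 := ⟨r - 1, by omega⟩
      rw [Nat.add_sub_cancel]; ring
    rw [h3, ← hper, Nat.add_mul_mod_self_right, hper] at h2
    exact h2

theorem no_factor {T : X → X} (ht : IsTransitive T) {p : X} (hp : T p = p) : NoEquicontinuousFactor T := by
  intro Y _ S π hπ hs hc he
  have hq : ∀ n : ℕ, S^[n] (π p) = π p := by
    intro n
    induction n with
    | zero => rfl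
    | succ n ih => rw [Function.iterate_succ_apply', ih, ← hc, hp]
  have hn : ∀ (n : ℕ) (x : X), π (T^[n] x) = S^[n] (π x) := by
    intro n
    induction n with
    | zero => intro x; rfl
    | succ n ih => intro x; rw [Function.iterate_succ_apply', hc, ih, Function.iterate_succ_apply']
  have key : ∀ y : Y, y = π p := by
    intro y
    obtain ⟨x, rfl⟩ := hs y
    by_contra hne
    have hd : 0 < dist (π x) (π p) := dist_pos.2 hne
    obtain ⟨δ, hδ, h⟩ := he (dist (π x) (π p) / 2) (by positivity)
    obtain ⟨n, u, hu1, hu2⟩ := ht (π ⁻¹' Metric.ball (π p) δ) (π ⁻¹' Metric.ball (π x) (dist (π x) (π p) / 2))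
      (Metric.isOpen_ball.preimage hπ) (Metric.isOpen_ball.preimage hπ) ⟨p, Metric.mem_ball_self hδ⟩
      ⟨x, Metric.mem_ball_self (by positivity)⟩
    have h1 := h _ _ (Metric.mem_ball.1 hu1) n
    have h2 : dist (π (T^[n] u)) (π x) < dist (π x) (π p) / 2 := Metric.mem_ball.1 hu2
    rw [hn] at h2
    rw [hq] at h1
    have h3 := dist_triangle (π x) (S^[n] (π u)) (π p)
    rw [dist_comm (π x) (S^[n] (π u))] at h3
    linarith
  exact ⟨fun a b => (key a).trans (key b).symm⟩

open Pool.Agent.KS6_12.LY in
/-- There is a transitive system `(X, T)` with dense periodic points and a fixed point, in particular an M-system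
that is not minimal and has no nontrivial equicontinuous factor, that is not Li-Yorke sensitive: there are a point `x`
and a neighbourhood `U` of `x` such that no point `y ≠ x` of `U` is proximal to `x`. -/
theorem result : ∃ (X : Type) (_ : MetricSpace X) (T : X → X),
    IsMSystem T ∧ Dense {x : X | ∃ r : ℕ, 1 ≤ r ∧ T^[r] x = x} ∧ (∃ p, T p = p) ∧ NoEquicontinuousFactor T ∧
    ¬ IsMinimalSet T univ ∧ ¬ LiYorkeSensitive T ∧
    ∃ x : X, ∃ U ∈ 𝓝 x, ∀ y ∈ U, y ≠ x → 0 < liminf (fun n : ℕ => dist (T^[n] x) (T^[n] y)) atTop := by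
  classical
  have hmet : TopologicalSpace.MetrizableSpace XX := Topology.IsEmbedding.subtypeVal.metrizableSpace
  let _ : MetricSpace XX := TopologicalSpace.metrizableSpaceMetric XX
  have hcomp : CompactSpace XX := compact_XX
  have ht : IsTransitive (X := XX) T := fun U V hU hV hU' hV' => transitive_T hU hV hU' hV'
  have hbd : ∀ y : XX, IsBoundedUnder (· ≤ ·) atTop (fun n : ℕ => dist (T^[n] px) (T^[n] y)) := fun y =>
    isBoundedUnder_of ⟨Metric.diam (univ : Set XX), fun n =>
      Metric.dist_le_diam_of_mem isCompact_univ.isBounded (mem_univ _) (mem_univ _)⟩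
  have hprox : ∀ y : XX, y.1 0 = true → y ≠ px →
      0 < liminf (fun n : ℕ => dist (T^[n] px) (T^[n] y)) atTop := by
    intro y h0 hne
    obtain ⟨L, hL⟩ := not_proximal y.2 h0 fun h => hne (Subtype.ext h)
    have hmem : ∀ n : ℕ, (T^[n] px, T^[n] y) ∈ {q : XX × XX | ∃ i ≤ L, q.1.1 i ≠ q.2.1 i} := by
      intro n
      obtain ⟨i, hi, h⟩ := hL n
      refine ⟨i, hi, ?_⟩
      show (T^[n] px).1 i ≠ (T^[n] y).1 i
      rw [T_iter, T_iter]
      exact h
    obtain ⟨q, hq, hmin⟩ := (isCompact_diff L).exists_isMinOn ⟨_, hmem 0⟩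
      (f := fun q : XX × XX => dist q.1 q.2) continuous_dist.continuousOn
    have hpos : 0 < dist q.1 q.2 := by
      rw [dist_pos]
      rintro he
      obtain ⟨i, -, hi⟩ := hq
      exact hi (by rw [he])
    refine lt_of_lt_of_le hpos (le_liminf_of_le (hbd y).isCoboundedUnder_ge (Eventually.of_forall fun n => ?_))
    exact hmin (hmem n)
  have hU : {y : XX | y.1 0 = true} ∈ 𝓝 px := by
    have hc : Continuous fun y : XX => y.1 0 := (continuous_apply 0).comp continuous_subtype_val
    have ho : IsOpen {y : XX | y.1 0 = true} := (isOpen_discrete ({true} : Set Bool)).preimage hc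
    exact ho.mem_nhds xs_zero
  refine ⟨XX, inferInstance, T, ⟨⟨hcomp, ⟨px, pf, px_ne_pf⟩, no_isolated, continuous_T, surjective_T⟩, ht, ?_⟩,
    dense_periodic, ⟨pf, T_pf⟩, no_factor ht T_pf, ?_, ?_, px, _, hU, fun y hy hne => hprox y hy hne⟩
  · refine dense_periodic.mono ?_
    rintro x ⟨r, hr, h⟩
    exact periodic_minimal hr h
  · rintro ⟨-, h⟩
    have h1 := h {pf} (subset_univ _) (singleton_nonempty _) isClosed_singleton (fun x hx => by
      rw [mem_singleton_iff] at hx ⊢
      rw [hx, T_pf])
    have h2 : px ∈ ({pf} : Set XX) := by rw [h1]; exact mem_univ _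
    exact px_ne_pf h2
  · rintro ⟨δ, hδ, H⟩
    obtain ⟨y, hyU, hinf, hsup⟩ := H px _ hU
    by_cases hy : y = px
    · rw [hy] at hsup
      simp only [dist_self] at hsup
      rw [limsup_const] at hsup
      linarith
    · have := hprox y hyU hy
      rw [hinf] at this
      exact lt_irrefl _ this

end Pool.Agent.Results.MP_6bd6f6_an.DensePeriodicPoints
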